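import Pool.Agent.NH42.HF.Fin
import Pool.Agent.NH42.Max
import Pool.Agent.Y244.WR.Max

/-!
# Kakeya maximal estimates for families of lines of class `C^{1,α}`

Work in `ℝ^n = ℝ^d × ℝ`, `n = d + 1`.  A family of lines, one line in each direction `(v, 1)`,
`|v| ≤ 1`, is given by `b : ℝ^d → ℝ^d`: the line number `v` is `{(b v + s v, s) : s ∈ ℝ}`, and
`lineMax δ b f v` is the supremum of the averages of `|f|` over the `δ`-tubes of length one with
axis on the line number `v`.  Every Kakeya maximal estimate in `L^{p₀}(ℝ^n)` is upgraded for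
families `b` of class `C^{1,α}`: in particular to estimates in `L^p`, `p > n + (n - p₀) / α`, which
are uniform in `δ`, if the derivative of `b` is symmetric.
-/

set_option autoImplicit false

open MeasureTheory Set Metric
open scoped ENNReal

namespace Pool.Agent.Results.MP_5168f5_an.HolderFamilies

/-- Euclidean space `ℝ^d`. -/
abbrev Vec (d : ℕ) : Type := EuclideanSpace ℝ (Fin d)

/-- Euclidean space `ℝ^{d+1}`, written as `ℝ^d × ℝ` with the Euclidean norm. -/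
abbrev Space (d : ℕ) : Type := WithLp 2 (Vec d × ℝ)

/-- The closed tube of length `1` and radius `δ` with centre `a` and axis direction `e`. -/
def tube {d : ℕ} (δ : ℝ) (e a : Space d) : Set (Space d) :=
  {y | |inner ℝ (y - a) e| ≤ 1 / 2 ∧ ‖(y - a) - (inner ℝ (y - a) e : ℝ) • e‖ ≤ δ}

/-- The unit vector `(v, 1) / |(v, 1)|`. -/
noncomputable def dir {d : ℕ} (v : Vec d) : Space d :=
  (√(1 + ‖v‖ ^ 2))⁻¹ • WithLp.toLp 2 (v, (1 : ℝ))

/-- The point of height `s` on the line number `v` of the family `b`. -/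
noncomputable def linePt {d : ℕ} (b : Vec d → Vec d) (v : Vec d) (s : ℝ) : Space d :=
  WithLp.toLp 2 (b v + s • v, s)

/-- Supremum of the averages of `|f|` over the `δ`-tubes with axis on the line number `v`. -/
noncomputable def lineMax {d : ℕ} (δ : ℝ) (b : Vec d → Vec d) (f : Space d → ℝ) (v : Vec d) :
    ℝ≥0∞ :=
  ⨆ s : ℝ, (volume (tube δ (dir v) (linePt b v s)))⁻¹ *
    ∫⁻ y in tube δ (dir v) (linePt b v s), ‖f y‖ₑ

/-- The maximal function of the family `b` is bounded in `L^p` with the constant `C δ ^ (-e)`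
(for `e = 0`: uniformly in `δ`). -/
def Bound {d : ℕ} (C p e : ℝ) (b : Vec d → Vec d) : Prop :=
  ∀ (δ : ℝ) (f : Space d → ℝ), 0 < δ → δ < 1 → AEMeasurable f volume →
    ∫⁻ v in closedBall (0 : Vec d) 1, lineMax δ b f v ^ p ≤
      ENNReal.ofReal (C * δ ^ (-e)) * ∫⁻ y, ‖f y‖ₑ ^ p

/-- `b` is of class `C^{1,α}` on the closed unit ball, with derivative `D` and constant `A`. -/
def IsC1 {d : ℕ} (A α : ℝ) (b : Vec d → Vec d) (D : Vec d → (Vec d →L[ℝ] Vec d)) : Prop :=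
  ∀ v ∈ closedBall (0 : Vec d) 1, HasFDerivWithinAt b (D v) (closedBall 0 1) v ∧ ‖D v‖ ≤ A ∧
    ∀ w ∈ closedBall (0 : Vec d) 1, ‖D w - D v‖ ≤ A * ‖w - v‖ ^ α

/-- The derivatives are symmetric (`b` is the gradient of a function). -/
def Symm {d : ℕ} (D : Vec d → (Vec d →L[ℝ] Vec d)) : Prop :=
  ∀ v ∈ closedBall (0 : Vec d) 1, ∀ x y : Vec d, inner ℝ (D v x) y = inner ℝ x (D v y)

/-- The linear maps `D v + t` are bounded below by `c min (1, dist (t, Λ)) ^ γ`, where `Λ` is a set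
of at most `m` heights which may depend on `v`. -/
def Spread {d : ℕ} (γ : ℝ) (m : ℕ) (c : ℝ) (D : Vec d → (Vec d →L[ℝ] Vec d)) : Prop :=
  ∀ v ∈ closedBall (0 : Vec d) 1, ∃ Λ : Finset ℝ, Λ.card ≤ m ∧
    ∀ t : ℝ, ∃ l ∈ Λ, ∀ x : Vec d, c * min 1 |t - l| ^ γ * ‖x‖ ≤ ‖D v x + t • x‖

/-- The closed cylinder of length `1` and radius `δ` with centre `a` and axis direction `e`. -/
def cyl {n : ℕ} (δ : ℝ) (a e : Vec n) : Set (Vec n) :=
  {y | |inner ℝ (y - a) e| ≤ 1 / 2 ∧ ‖(y - a) - (inner ℝ (y - a) e) • e‖ ≤ δ}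

/-- The Kakeya maximal estimate `∫ (f*_δ)^p ≤ C δ^(-θ) ∫ |f|^p` in `ℝ^{d+1}`. -/
def Kakeya (d : ℕ) (p θ : ℝ) : Prop := ∃ C : ℝ, 0 < C ∧ ∀ δ : ℝ, 0 < δ → δ < 1 →
  ∀ f : Vec (d + 1) → ℝ≥0∞, AEMeasurable f volume →
    ∫⁻ e : sphere (0 : Vec (d + 1)) 1,
        (⨆ a : Vec (d + 1), (volume (cyl δ a (e : Vec (d + 1))))⁻¹ *
          ∫⁻ y in cyl δ a (e : Vec (d + 1)), f y) ^ p
        ∂(volume : Measure (Vec (d + 1))).toSphere ≤
      ENNReal.ofReal (C * δ ^ (-θ)) * ∫⁻ y, f y ^ p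

/-- The losses `θ = n - p₀`, `n = d + 1`, of the two unconditional Kakeya maximal estimates in
`L^{p₀}` used below: Wolff's exponent `p₀ = (n + 2) / 2` (up to `δ^(-ε)`), and `p₀ = 1 + (n - 1) / c`
for the `c` of `SharpHybridMaximal`, for instance `c = 1.6752` for all `n ≥ 6`. -/
def Known (d : ℕ) (θ : ℝ) : Prop :=
  (2 ≤ d ∧ θ = ((d : ℝ) - 1) / 2) ∨
  (3 ≤ d ∧ ∃ y c : ℝ, 0 ≤ y ∧ 1 < c ∧
    0 < d * (c ^ 3 - 4 * c + 2) + c * (3 * c - 1 - c ^ 2) + y * ((d + 1) * c - 2 * d) ∧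
    3 * c ^ 2 < d * (c ^ 2 - 1) + (d - 1) * y ∧ θ = d - d / c)

theorem known_fam {d : ℕ} {θ₀ : ℝ} (h : Known d θ₀) {η : ℝ} (hη : 0 < η) :
    ∃ p₀ θ : ℝ, 1 ≤ p₀ ∧ p₀ ≤ d + 1 - θ₀ ∧ θ < θ₀ + η ∧ Pool.Agent.NH42.HF.Fam d p₀ θ := by
  rcases h with ⟨hd, rfl⟩ | ⟨hd, y, c, hy, hc1, hg, hk, rfl⟩
  · have hd2 : (2 : ℝ) ≤ d := by exact_mod_cast hd
    have hd0 : (0 : ℝ) < d := by linarith
    -- `c` slightly larger than `2 d / (d + 1)`
    have hcont : Filter.Tendsto (fun c : ℝ => (d : ℝ) - d / c)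
        (nhdsWithin (2 * (d : ℝ) / (d + 1)) (Ioi (2 * (d : ℝ) / (d + 1))))
        (nhds ((d : ℝ) - d / (2 * (d : ℝ) / (d + 1)))) := by
      have h1 : ContinuousAt (fun c : ℝ => (d : ℝ) - d / c) (2 * (d : ℝ) / (d + 1)) := by
        apply ContinuousAt.sub continuousAt_const
        apply ContinuousAt.div continuousAt_const continuousAt_id
        simp only [id]
        positivity
      exact h1.tendsto.mono_left nhdsWithin_le_nhds
    have he : (d : ℝ) - d / (2 * (d : ℝ) / (d + 1)) = ((d : ℝ) - 1) / 2 := by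
      field_simp
      ring
    rw [he] at hcont
    have hev := hcont.eventually (gt_mem_nhds (show ((d : ℝ) - 1) / 2 < ((d : ℝ) - 1) / 2 + η by
      linarith))
    obtain ⟨c, hc1, hc2⟩ := (hev.and self_mem_nhdsWithin).exists
    have hc2' : 2 * (d : ℝ) / (d + 1) < c := hc2
    have hcpos : 0 < c := lt_trans (by positivity) hc2'
    refine ⟨1 + d / c, d - d / c, ?_, ?_, hc1, ?_⟩
    · have : 0 < (d : ℝ) / c := by positivity
      linarith
    · have h1 : (d : ℝ) / c ≤ ((d : ℝ) + 1) / 2 := by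
        rw [div_le_iff₀ hcpos]
        rw [div_lt_iff₀ (by positivity)] at hc2'
        nlinarith
      linarith
    · exact Pool.Agent.NH42.HF.famKM d (1 + d / c) (d - d / c) (by omega) (by
        have : 0 < (d : ℝ) / c := by positivity
        linarith) (Pool.Agent.Y244.WR.wolff_max hd hc2').2
  · have hd3 : (3 : ℝ) ≤ d := by exact_mod_cast hd
    have hc0 : 0 < c := by linarith
    have hdc : 0 < (d : ℝ) / c := by positivity
    refine ⟨1 + d / c, d - d / c, by linarith, by linarith, by linarith, ?_⟩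
    exact Pool.Agent.NH42.HF.famKM d (1 + d / c) (d - d / c) (by omega) (by linarith)
      (Pool.Agent.NH42.max_n hd ⟨hy, hc1, hg, hk⟩).2

theorem hol_of {d : ℕ} {A α : ℝ} {b : Vec d → Vec d} {D : Vec d → (Vec d →L[ℝ] Vec d)}
    (h : IsC1 A α b D) : Pool.Agent.NH42.HF.Hol A α b D :=
  ⟨fun v hv => (h v hv).1, fun v hv => (h v hv).2.1, fun v hv w hw => (h v hv).2.2 w hw⟩

/-- **Kakeya maximal estimates for families of lines of class `C^{1,α}`**, `n = d + 1`.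
`Bound C p e b`: the maximal function of the family is bounded in `L^p` with the constant
`C δ ^ (-e)`; for `e = 0` this is uniform in `δ`.

1. (general principle) a Kakeya maximal estimate in `L^{p₀}(ℝ^n)` with the loss `δ ^ (-θ)` implies
   `Bound C p e` for all families of class `C^{1,α}` which satisfy the condition `Spread` with the
   exponent `γ`, if `p ≥ p₀` and `α (n - 1 - (p - 1) / γ) + θ < (1 + α) e`;
2. (`n = 2`) for all families of class `C^{1,α}` and `p ≥ 2`, if `α (2 - p) < (1 + α) e`; in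
   particular uniformly in `δ` for all `p > 2`;
3. (`n ≥ 3`, symmetric derivatives) if `p ≥ p₀ = n - θ₀` and `α (n - p) + θ₀ < (1 + α) e`; in
   particular uniformly in `δ` for `p > n + (n - p₀) / α`, and at `p = n` with the loss
   `δ ^ (-(n - p₀) / (1 + α) - ε)` instead of `δ ^ (-(n - p₀))`;
4. (`n ≥ 3`, all families of class `C^{1,α}`) if `p ≥ p₀` and
   `α (n - 1 - (p - 1) / (n - 1)) + θ₀ < (1 + α) e`; in particular uniformly in `δ` for
   `p > 1 + (n - 1)² + (n - 1) (n - p₀) / α`;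
5. (values of `θ₀ = n - p₀`) `(n - 2) / 2` for `n ≥ 3` and `(n - 1) (1 - 1 / 1.6752)` for
   `n ≥ 6` are admissible in 3. and 4. -/
theorem result :
    (∀ (d m : ℕ) (p₀ θ p α γ e A c : ℝ), 1 ≤ d → 1 ≤ p₀ → Kakeya d p₀ θ → p₀ ≤ p → 1 < p →
      0 < α → α ≤ 1 → 1 ≤ γ → 0 ≤ e → α * (d - (p - 1) / γ) + θ < (1 + α) * e → 1 ≤ A → 0 < c →
      ∃ C : ℝ, 0 < C ∧ ∀ (b : Vec d → Vec d) (D : Vec d → (Vec d →L[ℝ] Vec d)), IsC1 A α b D →
        Spread γ m c D → Bound C p e b) ∧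
    (∀ p α e A : ℝ, 2 ≤ p → 0 < α → α ≤ 1 → 0 ≤ e → α * (2 - p) < (1 + α) * e → 1 ≤ A →
      ∃ C : ℝ, 0 < C ∧ ∀ (b : Vec 1 → Vec 1) (D : Vec 1 → (Vec 1 →L[ℝ] Vec 1)), IsC1 A α b D →
        Bound C p e b) ∧
    (∀ (d : ℕ) (θ₀ p α e A : ℝ), Known d θ₀ → d + 1 - θ₀ ≤ p → 0 < α → α ≤ 1 → 0 ≤ e →
      α * (d + 1 - p) + θ₀ < (1 + α) * e → 1 ≤ A →
      ∃ C : ℝ, 0 < C ∧ ∀ (b : Vec d → Vec d) (D : Vec d → (Vec d →L[ℝ] Vec d)), IsC1 A α b D →
        Symm D → Bound C p e b) ∧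
    (∀ (d : ℕ) (θ₀ p α e A : ℝ), Known d θ₀ → d + 1 - θ₀ ≤ p → 0 < α → α ≤ 1 → 0 ≤ e →
      α * (d - (p - 1) / d) + θ₀ < (1 + α) * e → 1 ≤ A →
      ∃ C : ℝ, 0 < C ∧ ∀ (b : Vec d → Vec d) (D : Vec d → (Vec d →L[ℝ] Vec d)), IsC1 A α b D →
        Bound C p e b) ∧
    (∀ d : ℕ, 2 ≤ d → Known d (((d : ℝ) - 1) / 2)) ∧
    (∀ d : ℕ, 5 ≤ d → Known d (d - d / 1.6752)) := by
  refine ⟨?_, ?_, ?_, ?_, fun d hd => Or.inl ⟨hd, rfl⟩, ?_⟩
  · intro d m p₀ θ p α γ e A c hd hp₀ hK hpp hp hα hα1 hγ he hcond hA hc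
    have hF := Pool.Agent.NH42.HF.famKM d p₀ θ hd hp₀ hK
    obtain ⟨C, hC, h⟩ := Pool.Agent.NH42.HF.gen hp₀ hF m hpp hp hα hα1 hγ he hcond hA hc
    exact ⟨C, hC, fun b D hb hS => h b D (hol_of hb) hS⟩
  · intro p α e A hp hα hα1 he hcond hA
    set θ : ℝ := ((1 + α) * e - α * (2 - p)) / 2 with hθ
    have hθ0 : 0 < θ := by rw [hθ]; linarith
    have hF := Pool.Agent.NH42.HF.famPlanar θ hθ0
    obtain ⟨c, hc, hall⟩ := Pool.Agent.NH42.HF.all 1 A le_rfl hA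
    obtain ⟨C, hC, h⟩ := Pool.Agent.NH42.HF.gen (by norm_num) hF (γ := ((1 : ℕ) : ℝ)) 1 hp
      (by linarith) hα hα1 (by norm_num) he (by
        push_cast
        rw [hθ, div_one]
        linarith) hA hc
    exact ⟨C, hC, fun b D hb => h b D (hol_of hb) (hall D (fun v hv => (hb v hv).2.1))⟩
  · intro d θ₀ p α e A hK hp hα hα1 he hcond hA
    have hd : 1 ≤ d := by
      rcases hK with ⟨h, _⟩ | ⟨h, _⟩ <;> omega
    obtain ⟨p₀, θ, hp₀, hp₀2, hθ, hF⟩ := known_fam hK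
      (show 0 < (1 + α) * e - (α * (d + 1 - p) + θ₀) by linarith)
    have hp1 : 1 < p := by
      rcases hK with ⟨h, h2⟩ | ⟨h, y, c, _, hc1, _, _, h2⟩
      · have : (2 : ℝ) ≤ d := by exact_mod_cast h
        rw [h2] at hp
        linarith
      · have hd3 : (3 : ℝ) ≤ d := by exact_mod_cast h
        have : 0 < (d : ℝ) / c := by positivity
        rw [h2] at hp
        linarith
    obtain ⟨C, hC, h⟩ := Pool.Agent.NH42.HF.gen hp₀ hF (γ := 1) (c := 1) d (hp₀2.trans hp)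
      hp1 hα hα1 le_rfl he (by
        rw [div_one]
        linarith) hA one_pos
    exact ⟨C, hC, fun b D hb hS => h b D (hol_of hb) (Pool.Agent.NH42.HF.symm d D hd hS)⟩
  · intro d θ₀ p α e A hK hp hα hα1 he hcond hA
    have hd : 1 ≤ d := by
      rcases hK with ⟨h, _⟩ | ⟨h, _⟩ <;> omega
    obtain ⟨p₀, θ, hp₀, hp₀2, hθ, hF⟩ := known_fam hK
      (show 0 < (1 + α) * e - (α * (d - (p - 1) / d) + θ₀) by linarith)
    have hp1 : 1 < p := by
      rcases hK with ⟨h, h2⟩ | ⟨h, y, c, _, hc1, _, _, h2⟩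
      · have : (2 : ℝ) ≤ d := by exact_mod_cast h
        rw [h2] at hp
        linarith
      · have hd3 : (3 : ℝ) ≤ d := by exact_mod_cast h
        have : 0 < (d : ℝ) / c := by positivity
        rw [h2] at hp
        linarith
    obtain ⟨c, hc, hall⟩ := Pool.Agent.NH42.HF.all d A hd hA
    obtain ⟨C, hC, h⟩ := Pool.Agent.NH42.HF.gen hp₀ hF (γ := (d : ℝ)) (c := c) d (hp₀2.trans hp)
      hp1 hα hα1 (by exact_mod_cast hd) he (by linarith) hA hc
    exact ⟨C, hC, fun b D hb => h b D (hol_of hb) (hall D (fun v hv => (hb v hv).2.1))⟩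
  · intro d hd
    have hd5 : (5 : ℝ) ≤ d := by exact_mod_cast hd
    refine Or.inr ⟨by omega, 0, 1.6752, le_rfl, by norm_num, ?_, ?_, rfl⟩
    · norm_num
      nlinarith
    · norm_num
      nlinarith

end Pool.Agent.Results.MP_5168f5_an.HolderFamilies
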