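import Pool.Agent.NH82.MS.Final

set_option autoImplicit false

/-!
# MP_5168f5: the full Kakeya maximal function on functions with mixed slices

Write points of `ℝ^n`, `n = d + 2 ≥ 3`, as `(t, y, z)` with `t, y ∈ ℝ` and `z ∈ ℝ^d`.  A set
`E ⊆ ℝ^n` has *mixed slices* if for almost every height `t` its slice is contained in a product
`A × B`, where `A ⊆ ℝ` is an ARBITRARY set of values of `y` and `B ⊆ ℝ^d` is covered by `N` pieces of
degree `D` (semialgebraic of degree at most `D`, and convex for `D = 0`); there is no condition on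
the dependence of `A` and `B` on `t`.  Its size is the integral over `t` of `|A|` times the total
volume of the pieces.

We consider functions `f` all of whose superlevel sets `{|f| > r}` are covered by `K` such
sets, each of them in its own orthonormal coordinate system, of total size at most `M |{|f| > r}|`.
On these functions the estimate of the Kakeya maximal conjecture holds at the critical exponent `n`
with a logarithmic loss in `δ`; the supremum in the maximal function is over ALL tubes of dimensions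
`1 × δ`.

For `K = 1` the class contains all products of an arbitrary function of the two variables `(t, y)`
and of the indicator function of a set `{(t, z) : z ∈ B t}` with convex (or semialgebraic, of bounded
degree) sets `B t` which depend arbitrarily on `t`.
-/

open MeasureTheory Set ENNReal NNReal Metric

namespace Pool.Agent.Results.MP_5168f5_an.MixedSlices

/-- The space `ℝ^(d+2)`. -/
abbrev Space (d : ℕ) : Type := EuclideanSpace ℝ (Fin (d + 2))

/-- The unit sphere of `ℝ^(d+2)`. -/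
abbrev Direction (d : ℕ) : Type := sphere (0 : Space d) 1

/-- The surface measure of the unit sphere. -/
noncomputable def surf (d : ℕ) : Measure (Direction d) :=
  (volume : Measure (Space d)).toSphere

/-- The last `d` coordinates. -/
def zpart {d : ℕ} (x : Space d) : Fin d → ℝ := fun i => x i.succ.succ

/-- The point `(t, y, z)`. -/
def point {d : ℕ} (t y : ℝ) (z : Fin d → ℝ) : Space d :=
  WithLp.toLp 2 (Fin.cons t (Fin.cons y z : Fin (d + 1) → ℝ) : Fin (d + 2) → ℝ)

/-- `B ⊆ ℝ^d` is given by finitely many polynomial inequalities `P i > 0` and `Q j ≥ 0`, the total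
degrees of the polynomials adding up to at most `D`. -/
def Basic {d : ℕ} (D : ℕ) (B : Set (Fin d → ℝ)) : Prop :=
  ∃ (a b : ℕ) (P : Fin a → MvPolynomial (Fin d) ℝ) (Q : Fin b → MvPolynomial (Fin d) ℝ),
    ∑ i, (P i).totalDegree + ∑ j, (Q j).totalDegree ≤ D ∧
    B = {x | (∀ i, 0 < MvPolynomial.eval x (P i)) ∧ ∀ j, 0 ≤ MvPolynomial.eval x (Q j)}

/-- A piece of degree `D`: a basic semialgebraic set of degree at most `D`, and for `D = 0` a convex
set. -/
def Piece {d : ℕ} (D : ℕ) (B : Set (Fin d → ℝ)) : Prop := if D = 0 then Convex ℝ B else Basic D B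

/-- `B` is covered by `N` (possibly empty) pieces of degree `D` whose volumes add up to at
most `μ`. -/
def Cover {d : ℕ} (N D : ℕ) (μ : ℝ≥0∞) (B : Set (Fin d → ℝ)) : Prop :=
  ∃ C : Fin N → Set (Fin d → ℝ), (∀ j, Piece D (C j)) ∧ B ⊆ ⋃ j, C j ∧ ∑ j, volume (C j) ≤ μ

/-- `E` has mixed slices and size at most `m`: for almost every `t` the slice of `E` at height
`t` is contained in `A × B`, where `A` is any set of reals and `B` is covered by `N` pieces of degree
`D` of total volume at most `μ`, and `|A| μ ≤ g t` with `∫ g ≤ m`. -/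
def MixedSet {d : ℕ} (N D : ℕ) (m : ℝ≥0∞) (E : Set (Space d)) : Prop :=
  MeasurableSet E ∧ ∃ g : ℝ → ℝ≥0∞, Measurable g ∧ ∫⁻ t, g t ≤ m ∧
    ∀ᵐ t : ℝ, ∃ (A : Set ℝ) (B : Set (Fin d → ℝ)) (μ : ℝ≥0∞), Cover N D μ B ∧
      volume A * μ ≤ g t ∧ ∀ x ∈ E, x 0 = t → x 1 ∈ A ∧ zpart x ∈ B

/-- Every superlevel set of `|f|` is covered by `K` sets with mixed slices, each in its own
orthonormal coordinate system, of total size at most `M` times its volume. -/
def Mixed {d : ℕ} (K N D : ℕ) (M : ℝ≥0∞) (f : Space d → ℝ) : Prop :=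
  ∀ r : ℝ, 0 < r → ∃ (E : Fin K → Set (Space d)) (R : Fin K → (Space d ≃ₗᵢ[ℝ] Space d))
    (m : Fin K → ℝ≥0∞), (∀ k, MixedSet N D (m k) (E k)) ∧
    {x | r < |f x|} ⊆ ⋃ k, (R k) ⁻¹' (E k) ∧ ∑ k, m k ≤ M * volume {x | r < |f x|}

/-- The simplest case: for every `r > 0` and almost every `t` the slice of `{|f| > r}` at height
`t` is contained in `A × B` with `|A| μ ≤ M |slice|`, where `A` is any set of reals and `B` is covered
by `N` pieces of degree `D` of total volume at most `μ`. -/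
def Simple {d : ℕ} (N D : ℕ) (M : ℝ≥0∞) (f : Space d → ℝ) : Prop :=
  ∀ r : ℝ, 0 < r → ∀ᵐ t : ℝ, ∃ (A : Set ℝ) (B : Set (Fin d → ℝ)) (μ : ℝ≥0∞), Cover N D μ B ∧
    volume A * μ ≤ M * volume {p : ℝ × (Fin d → ℝ) | r < |f (point t p.1 p.2)|} ∧
    ∀ y z, r < |f (point t y z)| → y ∈ A ∧ z ∈ B

/-- The closed tube of length `1` and radius `δ` with centre `b` and axis direction `e`. -/
def tube {d : ℕ} (δ : ℝ) (e b : Space d) : Set (Space d) :=
  {y | |inner ℝ (y - b) e| ≤ 1 / 2 ∧ ‖(y - b) - (inner ℝ (y - b) e : ℝ) • e‖ ≤ δ}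

/-- The Kakeya maximal function. -/
noncomputable def kakeyaMax {d : ℕ} (δ : ℝ) (f : Space d → ℝ) (e : Space d) : ℝ≥0∞ :=
  ⨆ a : Space d, (volume (tube δ e a))⁻¹ * ∫⁻ y in tube δ e a, ‖f y‖ₑ

lemma measurable_pt' (d : ℕ) : MeasurePreserving
    (fun p : ℝ × (ℝ × (Fin d → ℝ)) => point (d := d) p.1 p.2.1 p.2.2) := by
  have h1 : MeasurePreserving (Pool.Agent.TH539.pt :
      ℝ × (Fin (d + 1) → ℝ) → EuclideanSpace ℝ (Fin (d + 2))) :=
    Pool.Agent.TH539.volume_preserving_pt
  have h2 := (volume_preserving_piFinSuccAbove (fun _ : Fin (d + 1) => ℝ) 0).symm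
  have h3 := (MeasurePreserving.id (volume : Measure ℝ)).prod h2
  have h4 := h1.comp h3
  have e : (Pool.Agent.TH539.pt : ℝ × (Fin (d + 1) → ℝ) → EuclideanSpace ℝ (Fin (d + 2))) ∘
      Prod.map id (MeasurableEquiv.piFinSuccAbove (fun _ : Fin (d + 1) => ℝ) 0).symm =
      fun p : ℝ × (ℝ × (Fin d → ℝ)) => point (d := d) p.1 p.2.1 p.2.2 := by
    funext p
    obtain ⟨t, y, z⟩ := p
    have h5 : ((MeasurableEquiv.piFinSuccAbove (fun _ : Fin (d + 1) => ℝ) 0).symm (y, z) :
        Fin (d + 1) → ℝ) = Fin.cons y z := by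
      rw [MeasurableEquiv.piFinSuccAbove_symm_apply]
      funext j
      rw [Fin.insertNthEquiv_apply, Fin.insertNth_zero']
    change Pool.Agent.TH539.pt
      (t, (MeasurableEquiv.piFinSuccAbove (fun _ : Fin (d + 1) => ℝ) 0).symm (y, z)) = _
    rw [h5]
    rfl
  rw [e] at h4
  exact h4

/-- The simple class is contained in the general one. -/
lemma Simple.mixed {d : ℕ} {N D : ℕ} {M : ℝ≥0∞} {f : Space d → ℝ} (hf : Measurable f)
    (h : Simple N D M f) : Mixed 1 N D M f := by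
  intro r hr
  have hEm : MeasurableSet {x : Space d | r < |f x|} :=
    measurableSet_lt measurable_const (measurable_norm.comp hf)
  have hmp := measurable_pt' d
  set S : Set (ℝ × (ℝ × (Fin d → ℝ))) := {p | r < |f (point p.1 p.2.1 p.2.2)|} with hS
  have hSm : MeasurableSet S := hEm.preimage hmp.measurable
  refine ⟨fun _ => {x | r < |f x|}, fun _ => LinearIsometryEquiv.refl ℝ _,
    fun _ => M * volume {x | r < |f x|}, ?_, ?_, by simp⟩
  · intro _
    refine ⟨hEm, fun t => M * volume {p : ℝ × (Fin d → ℝ) | r < |f (point t p.1 p.2)|},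
      (measurable_measure_prodMk_left hSm).const_mul M, ?_, ?_⟩
    · have h1 : Measurable fun t : ℝ => volume {p : ℝ × (Fin d → ℝ) | r < |f (point t p.1 p.2)|} :=
        measurable_measure_prodMk_left hSm
      rw [lintegral_const_mul _ h1]
      have h2 : volume {x : Space d | r < |f x|} = volume S :=
        (hmp.measure_preimage hEm.nullMeasurableSet).symm
      have h3 : volume S = ∫⁻ t : ℝ, volume {p : ℝ × (Fin d → ℝ) | r < |f (point t p.1 p.2)|} := by
        have h4 : volume S = ((volume : Measure ℝ).prod (volume : Measure (ℝ × (Fin d → ℝ)))) S := rfl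
        rw [h4, Measure.prod_apply hSm]
        rfl
      change M * _ ≤ M * volume {x : Space d | r < |f x|}
      rw [h2, h3]
    · filter_upwards [h r hr] with t ht
      obtain ⟨A, B, μ, h1, h2, h3⟩ := ht
      refine ⟨A, B, μ, h1, h2, ?_⟩
      intro x hx hxt
      have hpx : point t (x 1) (zpart x) = x := by
        subst hxt
        ext i
        refine Fin.cases rfl (fun j => ?_) i
        refine Fin.cases rfl (fun k => rfl) j
      have := h3 (x 1) (zpart x) (by rw [hpx]; exact hx)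
      exact this
  · intro x hx
    exact mem_iUnion.2 ⟨0, hx⟩

/-- **Kakeya maximal estimates for functions with mixed slices.**  Let `n = d + 2 ≥ 3`.  There is
`C` (depending on `n`) such that for all measurable `f` and `0 < δ < 1`
`∫_{S^(n-1)} (f^*_δ)^n ≤ C (1 + log (1/δ))^(2n) K^(n-1) N^(n-2) (D + 1)^((n-2)^2) M ∫ |f|^n`
whenever `f` is in the class given by `K, N, M ≥ 1` and `D`.  In particular this holds (with `K = 1`) if
the slices of the superlevel sets of `|f|` satisfy the condition `Simple`. -/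
theorem result (d : ℕ) (hd : 1 ≤ d) : ∃ C : ℝ, 0 < C ∧
    ∀ (f : Space d → ℝ) (δ : ℝ), Measurable f → 0 < δ → δ < 1 →
      (∀ (K N D : ℕ) (M : ℝ≥0∞), 1 ≤ K → 1 ≤ N → 1 ≤ M → Mixed K N D M f →
        ∫⁻ e : Direction d, kakeyaMax δ f e ^ (d + 2) ∂(surf d) ≤
          ENNReal.ofReal (C * (1 + Real.log (1 / δ)) ^ (2 * d + 4)) *
            ((K:ℝ≥0∞) ^ (d + 1) * ((N:ℝ≥0∞) ^ d * ((D:ℝ≥0∞) + 1) ^ (d ^ 2)) * M *
              ∫⁻ x, ‖f x‖ₑ ^ (d + 2))) ∧
      (∀ (N D : ℕ) (M : ℝ≥0∞), 1 ≤ N → 1 ≤ M → Simple N D M f →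
        ∫⁻ e : Direction d, kakeyaMax δ f e ^ (d + 2) ∂(surf d) ≤
          ENNReal.ofReal (C * (1 + Real.log (1 / δ)) ^ (2 * d + 4)) *
            (((N:ℝ≥0∞) ^ d * ((D:ℝ≥0∞) + 1) ^ (d ^ 2)) * M * ∫⁻ x, ‖f x‖ₑ ^ (d + 2))) := by
  obtain ⟨C, hC, hmain⟩ := Pool.Agent.NH82.MS.f_funCrit d hd
  have hcB := Pool.Agent.TH539.SA.cB_pos d
  refine ⟨C * Pool.Agent.TH539.SA.cB d, by positivity, ?_⟩
  intro f δ hf hδ hδ1
  have hlog : 0 ≤ Real.log (1 / δ) := Real.log_nonneg (by rw [le_div_iff₀ hδ]; linarith)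
  have key : ∀ (K N D : ℕ) (M : ℝ≥0∞), 1 ≤ K → 1 ≤ N → 1 ≤ M → Mixed K N D M f →
        ∫⁻ e : Direction d, kakeyaMax δ f e ^ (d + 2) ∂(surf d) ≤
          ENNReal.ofReal (C * Pool.Agent.TH539.SA.cB d * (1 + Real.log (1 / δ)) ^ (2 * d + 4)) *
            ((K:ℝ≥0∞) ^ (d + 1) * ((N:ℝ≥0∞) ^ d * ((D:ℝ≥0∞) + 1) ^ (d ^ 2)) * M *
              ∫⁻ x, ‖f x‖ₑ ^ (d + 2)) := by
    intro K N D M hK hN hM hmix
    have hV := Pool.Agent.TH539.SA.cover_vel hd N D
    have hmono : Pool.Agent.NH82.MS.Mono (Pool.Agent.TH539.SA.Cover (d := d) N D) := by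
      rintro m m' B B' ⟨T, hT, hB, hm⟩ hmm hBB
      exact ⟨T, hT, hBB.trans hB, hm.trans hmm⟩
    have hbd : ∀ (m : ℝ≥0∞) (B : Set (Fin d → ℝ)), Pool.Agent.TH539.SA.Cover N D m B →
        volume B ≤ m := by
      rintro m B ⟨T, hT, hB, hm⟩
      exact (measure_mono hB).trans ((measure_iUnion_fintype_le _ _).trans hm)
    have hone : (1:ℝ≥0∞) ≤ (N:ℝ≥0∞) ^ d * (Pool.Agent.TH539.SA.lamB d D : ℝ≥0∞) := by
      calc (1:ℝ≥0∞) = 1 * 1 := (one_mul 1).symm
        _ ≤ _ := mul_le_mul' (one_le_pow₀ (by exact_mod_cast hN))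
            (by exact_mod_cast Pool.Agent.TH539.SA.one_le_lamB d D)
    have h := hmain _ _ hV hmono hbd hone f K M hf hK hM hmix δ hδ hδ1
    refine h.trans ?_
    have hlam := Pool.Agent.TH539.SA.lam_le d N D
    calc ENNReal.ofReal (C * (1 + Real.log (1 / δ)) ^ (2 * d + 4)) *
          ((K:ℝ≥0∞) ^ (d + 1) * ((N:ℝ≥0∞) ^ d * (Pool.Agent.TH539.SA.lamB d D : ℝ≥0∞)) * M *
            ∫⁻ x, ‖f x‖ₑ ^ (d + 2))
        ≤ ENNReal.ofReal (C * (1 + Real.log (1 / δ)) ^ (2 * d + 4)) *
          ((K:ℝ≥0∞) ^ (d + 1) * (ENNReal.ofReal (Pool.Agent.TH539.SA.cB d) *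
            ((N:ℝ≥0∞) ^ d * ((D:ℝ≥0∞) + 1) ^ (d ^ 2))) * M * ∫⁻ x, ‖f x‖ₑ ^ (d + 2)) := by
          gcongr
      _ = _ := by
          have e : C * (Pool.Agent.TH539.SA.cB d : ℝ) * (1 + Real.log (1 / δ)) ^ (2 * d + 4) =
              (C * (1 + Real.log (1 / δ)) ^ (2 * d + 4)) * Pool.Agent.TH539.SA.cB d := by ring
          rw [e, ENNReal.ofReal_mul (p := C * (1 + Real.log (1 / δ)) ^ (2 * d + 4)) (by positivity)]
          ring
  refine ⟨key, ?_⟩
  intro N D M hN hM hs
  have h := key 1 N D M le_rfl hN hM (hs.mixed hf)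
  simpa using h

end Pool.Agent.Results.MP_5168f5_an.MixedSlices
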