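import Pool.Agent.NH22.RS.Q
import Pool.Agent.TH225.CK.H

set_option autoImplicit false

/-!
# MP_5168f5: the full Kakeya maximal function on ray-comonotone functions

Split the coordinates of some orthonormal basis of `ℝ^n` (with any origin) into blocks of at most
three coordinates.  We consider functions `f` such that `|f|` is an arbitrary function of the
coordinates of the block `0` and of one quantity `u k` for each other block, and is nonincreasing
in each of these quantities, where `u k` is an arbitrary measurable function of the coordinates of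
the block `k` if this block has at most two coordinates.  For blocks with three coordinates the
values along the rays from the origin have to be similarly ordered: there is one function of the
norm which orders the values along all rays (within a factor two of the distance), for the block
`0` only up to a factor `K`.  Examples are all functions `h (|x - p|) * w ((x - p) / |x - p|)` on
`ℝ^3`, with `h` and `w` arbitrary, and all products of such functions of three coordinates each
and of arbitrary functions of at most two coordinates each.  The supremum in the maximal function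
is over ALL tubes of dimensions `1 × δ`.  On these functions the estimate of the Kakeya maximal
conjecture holds at the critical exponent `n` with a logarithmic loss in `δ`.
-/

open MeasureTheory Set Filter Topology ENNReal NNReal Metric

namespace Pool.Agent.Results.MP_5168f5_an.RayComonotone

/-- The closed tube of length `1` and radius `δ` with centre `b` and axis direction `e`. -/
def tube {n : ℕ} (δ : ℝ) (e b : EuclideanSpace ℝ (Fin n)) : Set (EuclideanSpace ℝ (Fin n)) :=
  {y | |inner ℝ (y - b) e| ≤ 1 / 2 ∧ ‖(y - b) - (inner ℝ (y - b) e : ℝ) • e‖ ≤ δ}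

/-- The Kakeya maximal function. -/
noncomputable def kakeyaMax {n : ℕ} (δ : ℝ) (f : EuclideanSpace ℝ (Fin n) → ℝ)
    (e : EuclideanSpace ℝ (Fin n)) : ℝ≥0∞ :=
  ⨆ a : EuclideanSpace ℝ (Fin n), (volume (tube δ e a))⁻¹ * ∫⁻ y in tube δ e a, ‖f y‖ₑ

/-- `β` distributes the coordinates into blocks; every block has at most three coordinates. -/
def SmallBlocks {n : ℕ} (β : Fin n → ℕ) : Prop :=
  ∀ k, Fintype.card {i // β i = k} ≤ 3

/-- `g` depends only on the coordinates of the block `k`. -/
def DependsOn {n : ℕ} (β : Fin n → ℕ) (k : ℕ) (g : EuclideanSpace ℝ (Fin n) → ℝ) : Prop :=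
  ∀ x y : EuclideanSpace ℝ (Fin n), (∀ i, β i = k → x i = y i) → g x = g y

/-- The norm of the coordinates of `x` in the block `k`. -/
noncomputable def blockNorm {n : ℕ} (β : Fin n → ℕ) (k : ℕ) (x : EuclideanSpace ℝ (Fin n)) : ℝ :=
  √(∑ i, if β i = k then x i ^ 2 else 0)

/-- The point that arises from `x` if the coordinates in the block `k` are multiplied by `t`. -/
def dilate {n : ℕ} (β : Fin n → ℕ) (k : ℕ) (t : ℝ) (x : EuclideanSpace ℝ (Fin n)) :
    EuclideanSpace ℝ (Fin n) :=
  WithLp.toLp 2 fun i => if β i = k then t * x i else x i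

/-- There is one function `b` of the norm (of the coordinates in the block `k`) such that `u` does
not decrease under a dilation (of the block `k`) by a factor between `1 / 2` and `2` whenever `b`
does not decrease. -/
def RayOrdered {n : ℕ} (β : Fin n → ℕ) (k : ℕ) (u : EuclideanSpace ℝ (Fin n) → ℝ) : Prop :=
  ∃ b : ℝ → ℝ, Measurable b ∧ ∀ (x : EuclideanSpace ℝ (Fin n)) (t : ℝ), 1 / 2 ≤ t → t ≤ 2 →
    b (blockNorm β k x) ≤ b (t * blockNorm β k x) → u x ≤ u (dilate β k t x)

/-- In suitable Cartesian coordinates (the rotation `R` and the origin `p`) there are blocks of at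
most three coordinates and measurable functions `u k` of the coordinates of the block `k`, ordered
along rays by one function of the norm if the block `k ≠ 0` has three coordinates, such that `|f|`
does not decrease if the coordinates of the block `0` are kept and no `u k` with `k ≠ 0` increases;
and, if the block `0` has three coordinates, there is a function `a` of the norm such that `|f|`
increases at most by the factor `K` under a dilation of the block `0` by a factor between `1 / 2`
and `2` whenever `a` does not increase. -/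
def IsRayComonotone {n : ℕ} (K : ℝ) (f : EuclideanSpace ℝ (Fin n) → ℝ) : Prop :=
  ∃ (p : EuclideanSpace ℝ (Fin n))
    (R : EuclideanSpace ℝ (Fin n) ≃ₗᵢ[ℝ] EuclideanSpace ℝ (Fin n)) (β : Fin n → ℕ)
    (u : ℕ → EuclideanSpace ℝ (Fin n) → ℝ),
    SmallBlocks β ∧ (∀ k, Measurable (u k)) ∧ (∀ k, DependsOn β k (u k)) ∧
    (∀ k, k ≠ 0 → Fintype.card {i // β i = k} = 3 → RayOrdered β k (u k)) ∧
    (∀ x y : EuclideanSpace ℝ (Fin n), (∀ i, β i = 0 → x i = y i) →
      (∀ k, k ≠ 0 → u k y ≤ u k x) → |f (p + R x)| ≤ |f (p + R y)|) ∧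
    (Fintype.card {i // β i = 0} = 3 → ∃ a : ℝ → ℝ, Measurable a ∧
      ∀ (x : EuclideanSpace ℝ (Fin n)) (t : ℝ), 1 / 2 ≤ t → t ≤ 2 →
        a (t * blockNorm β 0 x) ≤ a (blockNorm β 0 x) →
          |f (p + R (dilate β 0 t x))| ≤ K * |f (p + R x)|)

/-- In suitable Cartesian coordinates `f` is a product of measurable functions of blocks of at
most three coordinates; the factors for the blocks of three coordinates are products of a function
of the norm and of a function that is invariant under dilations. -/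
def PolarProduct {n : ℕ} (f : EuclideanSpace ℝ (Fin n) → ℝ) : Prop :=
  ∃ (p : EuclideanSpace ℝ (Fin n))
    (R : EuclideanSpace ℝ (Fin n) ≃ₗᵢ[ℝ] EuclideanSpace ℝ (Fin n)) (β : Fin n → ℕ) (s : Finset ℕ)
    (g : ℕ → EuclideanSpace ℝ (Fin n) → ℝ),
    SmallBlocks β ∧ (∀ k, Measurable (g k)) ∧ (∀ k, DependsOn β k (g k)) ∧
    (∀ k, Fintype.card {i // β i = k} = 3 → ∃ (h : ℝ → ℝ) (w : EuclideanSpace ℝ (Fin n) → ℝ),
      Measurable h ∧ (∀ x t, 0 < t → w (dilate β k t x) = w x) ∧
        ∀ x, g k x = h (blockNorm β k x) * w x) ∧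
    ∀ x, f (p + R x) = ∏ k ∈ s, g k x

theorem blockNorm_dilate {n : ℕ} (β : Fin n → ℕ) (k : ℕ) {t : ℝ} (ht : 0 ≤ t)
    (x : EuclideanSpace ℝ (Fin n)) : blockNorm β k (dilate β k t x) = t * blockNorm β k x := by
  unfold blockNorm dilate
  have h1 : ∀ i, (if β i = k then (WithLp.toLp 2 fun i => if β i = k then t * x i else x i :
      EuclideanSpace ℝ (Fin n)) i ^ 2 else 0) = t ^ 2 * (if β i = k then x i ^ 2 else 0) := by
    intro i
    by_cases h : β i = k
    · simp only [h, if_true]; ring
    · simp [h]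
  rw [Finset.sum_congr rfl (fun i _ => h1 i), ← Finset.mul_sum, Real.sqrt_mul (sq_nonneg t),
    Real.sqrt_sq ht]

theorem dilate_apply {n : ℕ} (β : Fin n → ℕ) (k : ℕ) (t : ℝ) (x : EuclideanSpace ℝ (Fin n))
    (i : Fin n) : dilate β k t x i = if β i = k then t * x i else x i := rfl

theorem rayComonotone_of_product {n : ℕ} {f : EuclideanSpace ℝ (Fin n) → ℝ}
    (hf : PolarProduct f) : IsRayComonotone 1 f := by
  obtain ⟨p, R, β, s, g, hβ, hgm, hgd, hg3, hf⟩ := hf
  have hray : ∀ k, Fintype.card {i // β i = k} = 3 → ∃ a : ℝ → ℝ, Measurable a ∧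
      ∀ (x : EuclideanSpace ℝ (Fin n)) (t : ℝ), 1 / 2 ≤ t → t ≤ 2 →
        a (t * blockNorm β k x) ≤ a (blockNorm β k x) → |g k (dilate β k t x)| ≤ |g k x| := by
    intro k hk
    obtain ⟨h, w, hh, hw, hgh⟩ := hg3 k hk
    refine ⟨fun s => |h s|, hh.abs, fun x t ht1 ht2 hx => ?_⟩
    rw [hgh, hgh, blockNorm_dilate β k (by linarith), hw x t (by linarith), abs_mul, abs_mul]
    exact mul_le_mul_of_nonneg_right hx (abs_nonneg _)
  refine ⟨p, R, β, fun k x => - |g k x|, hβ, fun k => ?_, fun k x y hxy => ?_, ?_, ?_, ?_⟩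
  · have := (hgm k).abs
    exact this.neg
  · simp only
    rw [hgd k x y hxy]
  · intro k _ hk3
    obtain ⟨a, ha, haf⟩ := hray k hk3
    refine ⟨fun s => - a s, ha.neg, fun x t ht1 ht2 hx => ?_⟩
    have := haf x t ht1 ht2 (by simpa using hx)
    simpa using this
  · intro x y h0 hu
    rw [hf, hf, Finset.abs_prod, Finset.abs_prod]
    apply Finset.prod_le_prod (fun _ _ => abs_nonneg _)
    intro k _
    by_cases hk : k = 0
    · subst hk
      rw [hgd 0 x y h0]
    · have := hu k hk
      simp only [neg_le_neg_iff] at this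
      exact this
  · intro hk3
    obtain ⟨a, ha, haf⟩ := hray 0 hk3
    refine ⟨a, ha, fun x t ht1 ht2 hx => ?_⟩
    rw [one_mul, hf, hf, Finset.abs_prod, Finset.abs_prod]
    apply Finset.prod_le_prod (fun _ _ => abs_nonneg _)
    intro k _
    by_cases hk : k = 0
    · subst hk
      exact haf x t ht1 ht2 hx
    · apply le_of_eq
      rw [hgd k (dilate β 0 t x) x]
      intro i hi
      rw [dilate_apply, if_neg]
      rw [hi]
      exact hk

theorem rayComonotone_polar (p : EuclideanSpace ℝ (Fin 3)) (h : ℝ → ℝ)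
    (w : EuclideanSpace ℝ (Fin 3) → ℝ) (hh : Measurable h) :
    IsRayComonotone 1 (fun x => h ‖x - p‖ * w (‖x - p‖⁻¹ • (x - p))) := by
  have hb : ∀ x : EuclideanSpace ℝ (Fin 3), blockNorm (fun _ => 0) 0 x = ‖x‖ := by
    intro x
    unfold blockNorm
    rw [EuclideanSpace.norm_eq]
    simp [Real.norm_eq_abs, sq_abs]
  have hd : ∀ (t : ℝ) (x : EuclideanSpace ℝ (Fin 3)), dilate (fun _ => 0) 0 t x = t • x := by
    intro t x
    ext i
    simp [dilate_apply]
  refine ⟨p, LinearIsometryEquiv.refl ℝ _, fun _ => 0, fun _ _ => 0, ?_, fun _ => measurable_const,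
    fun _ _ _ _ => rfl, ?_, ?_, ?_⟩
  · intro k
    exact (Fintype.card_subtype_le _).trans (by simp)
  · intro k hk hk3
    have : IsEmpty {i : Fin 3 // 0 = k} := ⟨fun i => hk i.2.symm⟩
    rw [Fintype.card_eq_zero] at hk3
    omega
  · intro x y hxy _
    have : x = y := by ext i; exact hxy i rfl
    rw [this]
  · intro _
    refine ⟨fun s => |h s|, hh.abs, fun x t ht1 ht2 hx => ?_⟩
    rw [hb] at hx
    rw [hd]
    have ht0 : 0 < t := by linarith
    have e1 : ‖p + (LinearIsometryEquiv.refl ℝ (EuclideanSpace ℝ (Fin 3))) (t • x) - p‖ =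
        t * ‖x‖ := by
      simp [norm_smul, abs_of_pos ht0]
    have e2 : ‖p + (LinearIsometryEquiv.refl ℝ (EuclideanSpace ℝ (Fin 3))) x - p‖ = ‖x‖ := by
      simp
    have e3 : (t * ‖x‖)⁻¹ • (p + (LinearIsometryEquiv.refl ℝ (EuclideanSpace ℝ (Fin 3)))
        (t • x) - p) = ‖x‖⁻¹ • (p + (LinearIsometryEquiv.refl ℝ (EuclideanSpace ℝ (Fin 3))) x -
          p) := by
      simp only [LinearIsometryEquiv.coe_refl, id_eq, add_sub_cancel_left]
      rw [smul_smul, mul_inv]
      congr 1
      field_simp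
    simp only [e1, e2, e3, abs_mul, one_mul]
    exact mul_le_mul_of_nonneg_right hx (abs_nonneg _)

open Pool.Agent.TH225.CK Pool.Agent.NH22.RS

theorem mem_tube_iff {n : ℕ} (R : EuclideanSpace ℝ (Fin n) ≃ₗᵢ[ℝ] EuclideanSpace ℝ (Fin n))
    (δ : ℝ) (p e a z : EuclideanSpace ℝ (Fin n)) :
    p + R z ∈ tube δ e a ↔ z ∈ tube δ (R.symm e) (R.symm (a - p)) := by
  have h1 : p + R z - a = R (z - R.symm (a - p)) := by
    rw [map_sub, R.apply_symm_apply]; abel
  have h2 : (inner ℝ (R (z - R.symm (a - p))) e : ℝ) =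
      inner ℝ (z - R.symm (a - p)) (R.symm e) := by
    conv_lhs => rw [← R.apply_symm_apply e]
    exact R.inner_map_map _ _
  have h3 : ∀ c : ℝ, ‖R (z - R.symm (a - p)) - c • e‖ =
      ‖(z - R.symm (a - p)) - c • R.symm e‖ := by
    intro c
    conv_lhs => rw [← R.apply_symm_apply e, ← map_smul, ← map_sub]
    exact R.norm_map _
  simp only [tube, Set.mem_ofPred_eq, h1, h2, h3]

theorem isClosed_tube {n : ℕ} (δ : ℝ) (e a : EuclideanSpace ℝ (Fin n)) :
    IsClosed (tube δ e a) := by
  have c1 : Continuous (fun y : EuclideanSpace ℝ (Fin n) => |(inner ℝ (y - a) e : ℝ)|) := by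
    fun_prop
  have c2 : Continuous (fun y : EuclideanSpace ℝ (Fin n) =>
    ‖(y - a) - (inner ℝ (y - a) e : ℝ) • e‖) := by fun_prop
  exact (isClosed_le c1 continuous_const).inter (isClosed_le c2 continuous_const)

theorem main (m : ℕ) : ∃ (C : ℝ) (c : ℕ), 0 < C ∧
    ∀ (δ K : ℝ) (f : EuclideanSpace ℝ (Fin (m + 1)) → ℝ), 0 < δ → δ < 1 → 1 ≤ K →
      Measurable f → IsRayComonotone K f →
      ∫⁻ e : sphere (0 : EuclideanSpace ℝ (Fin (m + 1))) 1, kakeyaMax δ f e ^ (m + 1)
          ∂(volume : Measure (EuclideanSpace ℝ (Fin (m + 1)))).toSphere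
        ≤ ENNReal.ofReal (C * K ^ (m + 1) * (1 + Real.log (1 / δ)) ^ c) *
          ∫⁻ y, ‖f y‖ₑ ^ (m + 1) := by
  obtain ⟨C, c, hC, hmain⟩ := main_ind3 (m + 1)
  obtain ⟨c0, hc0, hvol⟩ := Pool.Agent.H742R2.Kk.volume_tube m
  set Q : ℝ := 2 * 6 ^ (m + 1) / c0 with hQ
  have hQ0 : 0 < Q := by positivity
  refine ⟨2 ^ m * (2 * Q ^ (m + 1)) * (C + 2 ^ (m + 1)), c, by positivity, ?_⟩
  intro δ K f hδ hδ1 hK hf hS
  obtain ⟨p, R, β, u, hβ, hum, hud, hray, hfu, hf0⟩ := hS
  have hK0 : 0 < K := by linarith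
  have hKE : (1 : ℝ≥0∞) ≤ ENNReal.ofReal K := by
    rw [← ENNReal.ofReal_one]; exact ENNReal.ofReal_le_ofReal hK
  have hlog : 0 ≤ Real.log (1 / δ) := Real.log_nonneg (by rw [le_div_iff₀ hδ]; linarith)
  set G : (Fin (m + 1) → ℝ) → ℝ≥0∞ := fun x => ‖f (p + R (WithLp.toLp 2 x))‖ₑ with hG
  have hGm : Measurable G := by
    apply Measurable.enorm
    apply hf.comp
    exact (R.continuous.measurable.comp (WithLp.measurable_toLp 2 _)).const_add p
  have hG' : ∀ y : EuclideanSpace ℝ (Fin (m + 1)), G (fun i => y i) = ‖f (p + R y)‖ₑ :=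
    fun y => rfl
  have hnrm : ∀ (k : ℕ) (x : Fin (m + 1) → ℝ), nrm β k x = blockNorm β k (WithLp.toLp 2 x) :=
    fun k x => rfl
  have hdil : ∀ (k : ℕ) (t : ℝ) (x : Fin (m + 1) → ℝ),
      WithLp.toLp 2 (dil β k t x) = dilate β k t (WithLp.toLp 2 x) := fun k t x => rfl
  have hCo : CoM3 β (ENNReal.ofReal K) G := by
    refine ⟨fun k x => u k (WithLp.toLp 2 x), fun k => (hum k).comp (WithLp.measurable_toLp 2 _),
      fun k x y hxy => hud k _ _ hxy, ?_, ?_, ?_⟩
    · intro k hk hk3
      obtain ⟨b, hb, hbu⟩ := hray k hk hk3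
      refine ⟨b, hb, fun x t ht hx => ?_⟩
      rw [hnrm] at hx
      exact hbu (WithLp.toLp 2 x) t ht.1 ht.2 hx
    · intro x y h0 hu
      have h := hfu (WithLp.toLp 2 x) (WithLp.toLp 2 y) h0 hu
      simp only [hG, ← ofReal_norm, Real.norm_eq_abs]
      exact ENNReal.ofReal_le_ofReal h
    · intro h03
      obtain ⟨a, ha, hau⟩ := hf0 h03
      refine ⟨a, ha, fun x t ht hx => ?_⟩
      rw [hnrm] at hx
      have h := hau (WithLp.toLp 2 x) t ht.1 ht.2 hx
      simp only [hG, hdil, ← ofReal_norm, Real.norm_eq_abs]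
      rw [← ENNReal.ofReal_mul hK0.le]
      exact ENNReal.ofReal_le_ofReal h
  have hmpR : MeasurePreserving (fun z : EuclideanSpace ℝ (Fin (m + 1)) => p + R z) :=
    (measurePreserving_add_left volume p).comp R.measurePreserving
  have hmpL : MeasurePreserving
      (fun y : EuclideanSpace ℝ (Fin (m + 1)) => (fun i => y i : Fin (m + 1) → ℝ)) :=
    PiLp.volume_preserving_ofLp (Fin (m + 1))
  set I := ∫⁻ y, ‖f y‖ₑ ^ (m + 1) with hI
  have hGI : ∫⁻ y, G y ^ (m + 1) = I := by
    rw [← hmpL.lintegral_comp (hGm.pow_const _)]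
    simp only [hG']
    exact hmpR.lintegral_comp (hf.enorm.pow_const _)
  -- the estimate on the cube
  have hcube : ∫⁻ v, NN (3 * δ) G v ^ (m + 1) ∂(cu (Fin (m + 1))) ≤
      ENNReal.ofReal ((C + 2 ^ (m + 1)) * (1 + Real.log (1 / δ)) ^ c) *
        ENNReal.ofReal K ^ (m + 1) * I := by
    rcases le_or_gt (3 * δ) 1 with h3 | h3
    · refine (hmain (m + 1) (by omega) le_rfl (Fin (m + 1)) (Fintype.card_fin _) β hβ (3 * δ)
        (by positivity) h3 G hGm (ENNReal.ofReal K) hKE ENNReal.ofReal_ne_top hCo).trans ?_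
      rw [hGI]
      gcongr ?_ * _ * _
      apply ENNReal.ofReal_le_ofReal
      have h4 : Real.log (1 / (3 * δ)) ≤ Real.log (1 / δ) := by
        apply Real.log_le_log (by positivity)
        apply one_div_le_one_div_of_le hδ
        linarith
      have h5 : 0 ≤ Real.log (1 / (3 * δ)) :=
        Real.log_nonneg (by rw [le_div_iff₀ (by positivity)]; linarith)
      gcongr
      have : (0 : ℝ) < 2 ^ (m + 1) := by positivity
      linarith
    · calc ∫⁻ v, NN (3 * δ) G v ^ (m + 1) ∂(cu (Fin (m + 1)))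
          ≤ ∫⁻ _, I ∂(cu (Fin (m + 1))) := by
            apply lintegral_mono
            intro v
            refine (NN_sq_le (by positivity) hGm v (by omega)).trans ?_
            rw [hGI]
            calc ((ENNReal.ofReal (2 * (3 * δ)))⁻¹) ^ Fintype.card (Fin (m + 1)) * I
                ≤ 1 ^ Fintype.card (Fin (m + 1)) * I := by
                  gcongr
                  rw [ENNReal.inv_le_one, ← ENNReal.ofReal_one]
                  exact ENNReal.ofReal_le_ofReal (by linarith)
              _ = I := by rw [one_pow, one_mul]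
        _ = ENNReal.ofReal (2 ^ (m + 1)) * I := by
            rw [lintegral_const, cu_univ, Fintype.card_fin, mul_comm,
              ENNReal.ofReal_pow (by norm_num), ENNReal.ofReal_ofNat]
        _ ≤ _ := by
            gcongr ?_ * _
            refine le_trans ?_ (le_mul_of_one_le_right zero_le (one_le_pow_of_one_le' hKE (m + 1)))
            apply ENNReal.ofReal_le_ofReal
            have h5 : (1 : ℝ) ≤ (1 + Real.log (1 / δ)) ^ c := one_le_pow₀ (by linarith)
            have h6 : (0 : ℝ) < 2 ^ (m + 1) := by positivity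
            nlinarith
  -- the pointwise bound
  have hpt : ∀ (e : EuclideanSpace ℝ (Fin (m + 1))) (t : ℝ), ‖e‖ = 1 → t ∈ Icc (1 / 2 : ℝ) 1 →
      kakeyaMax δ f e ≤ ENNReal.ofReal Q * NN (3 * δ) G (fun i => (R.symm (t • e)) i) := by
    intro e t he ht
    apply iSup_le
    intro a
    have he' : ‖R.symm e‖ = 1 := by rw [R.symm.norm_map, he]
    have h1 : (volume (tube δ e a))⁻¹ ≤ ENNReal.ofReal ((c0 * δ ^ m)⁻¹) := by
      rw [ENNReal.ofReal_inv_of_pos (by positivity)]
      exact ENNReal.inv_le_inv.2 (hvol δ e a hδ he)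
    have h2 : ∫⁻ y in tube δ e a, ‖f y‖ₑ =
        ∫⁻ z in tube δ (R.symm e) (R.symm (a - p)), G (fun i => z i) := by
      rw [← lintegral_indicator (isClosed_tube _ _ _).measurableSet,
        ← lintegral_indicator (isClosed_tube _ _ _).measurableSet,
        ← hmpR.lintegral_comp (hf.enorm.indicator (isClosed_tube _ _ _).measurableSet)]
      apply lintegral_congr
      intro z
      by_cases hz : p + R z ∈ tube δ e a
      · rw [indicator_of_mem hz, indicator_of_mem ((mem_tube_iff R δ p e a z).1 hz)]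
      · rw [indicator_of_notMem hz,
          indicator_of_notMem (fun h => hz ((mem_tube_iff R δ p e a z).2 h))]
    have h3 := int_tube hδ hδ1.le (e := R.symm e) (a := R.symm (a - p)) he' hGm ht
    rw [h2]
    calc (volume (tube δ e a))⁻¹ *
          ∫⁻ z in tube δ (R.symm e) (R.symm (a - p)), G (fun i => z i)
        ≤ ENNReal.ofReal ((c0 * δ ^ m)⁻¹) * (ENNReal.ofReal (2 * (6 * δ) ^ (m + 1) / δ) *
          NN (3 * δ) G (fun i => (t • R.symm e) i)) := mul_le_mul' h1 h3
      _ = _ := by
          rw [← mul_assoc, ← ENNReal.ofReal_mul (by positivity), map_smul]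
          congr 2
          rw [hQ]
          field_simp
          ring
  -- the shell
  set g : EuclideanSpace ℝ (Fin (m + 1)) → ℝ≥0∞ :=
    fun x => 2 * ENNReal.ofReal (Q ^ (m + 1)) *
      NN (3 * δ) G (fun i => (R.symm x) i) ^ (m + 1) with hg
  have hNm : Measurable (NN (3 * δ) G) := measurable_NN (by positivity) hGm
  have hmpRs : MeasurePreserving R.symm := R.symm.measurePreserving
  have hgm' : Measurable (fun x : EuclideanSpace ℝ (Fin (m + 1)) =>
      NN (3 * δ) G (fun i => (R.symm x) i) ^ (m + 1)) :=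
    (hNm.comp (hmpL.measurable.comp hmpRs.measurable)).pow_const _
  have hgm : Measurable g := hgm'.const_mul _
  have hhalf : ∀ e : sphere (0 : EuclideanSpace ℝ (Fin (m + 1))) 1,
      kakeyaMax δ f e ^ (m + 1) ≤ ∫⁻ t in Icc (1 / 2 : ℝ) 1,
        g (t • (e : EuclideanSpace ℝ (Fin (m + 1)))) := by
    intro e
    have he : ‖(e : EuclideanSpace ℝ (Fin (m + 1)))‖ = 1 := by simp
    calc kakeyaMax δ f e ^ (m + 1)
        = ∫⁻ _ in Icc (1 / 2 : ℝ) 1, 2 * kakeyaMax δ f e ^ (m + 1) := by
          rw [lintegral_const, Measure.restrict_apply_univ, Real.volume_Icc]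
          have : ENNReal.ofReal (1 - 1 / 2) = 2⁻¹ := by
            rw [← ENNReal.ofReal_ofNat, ← ENNReal.ofReal_inv_of_pos (by norm_num)]
            norm_num
          rw [this, mul_comm (2 : ℝ≥0∞), mul_assoc, ENNReal.mul_inv_cancel (by norm_num)
            (by norm_num), mul_one]
      _ ≤ _ := by
          apply setLIntegral_mono' measurableSet_Icc
          intro t ht
          simp only [hg]
          rw [mul_assoc]
          gcongr
          rw [ENNReal.ofReal_pow hQ0.le, ← mul_pow]
          gcongr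
          exact hpt e t he ht
  have hball : ∫⁻ x in closedBall (0 : EuclideanSpace ℝ (Fin (m + 1))) 1,
      NN (3 * δ) G (fun i => (R.symm x) i) ^ (m + 1) ≤
        ∫⁻ v, NN (3 * δ) G v ^ (m + 1) ∂(cu (Fin (m + 1))) := by
    have hm3 : Measurable (fun v => (box (Fin (m + 1)) 1).indicator
        (fun v => NN (3 * δ) G v ^ (m + 1)) v) :=
      (hNm.pow_const _).indicator (measurableSet_box 1)
    have hm4 : Measurable (fun y : EuclideanSpace ℝ (Fin (m + 1)) =>
        (box (Fin (m + 1)) 1).indicator (fun v => NN (3 * δ) G v ^ (m + 1)) (fun i => y i)) :=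
      hm3.comp hmpL.measurable
    rw [cu_eq]
    change _ ≤ ∫⁻ v in box (Fin (m + 1)) 1, NN (3 * δ) G v ^ (m + 1)
    rw [← lintegral_indicator (measurableSet_box 1), ← hmpL.lintegral_comp hm3,
      ← hmpRs.lintegral_comp hm4, ← lintegral_indicator measurableSet_closedBall]
    apply lintegral_mono
    intro x
    by_cases hx : x ∈ closedBall (0 : EuclideanSpace ℝ (Fin (m + 1))) 1
    · rw [indicator_of_mem hx]
      have hmem : (fun i => (R.symm x) i : Fin (m + 1) → ℝ) ∈ box (Fin (m + 1)) 1 := by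
        intro i _
        apply abs_le.1
        rw [mem_closedBall_zero_iff] at hx
        have h1 := PiLp.norm_apply_le (R.symm x) i
        rw [R.symm.norm_map, Real.norm_eq_abs] at h1
        exact h1.trans hx
      beta_reduce
      rw [indicator_of_mem hmem]
    · rw [indicator_of_notMem hx]
      exact zero_le
  calc ∫⁻ e : sphere (0 : EuclideanSpace ℝ (Fin (m + 1))) 1, kakeyaMax δ f e ^ (m + 1)
          ∂(volume : Measure (EuclideanSpace ℝ (Fin (m + 1)))).toSphere
      ≤ ∫⁻ e : sphere (0 : EuclideanSpace ℝ (Fin (m + 1))) 1, (∫⁻ t in Icc (1 / 2 : ℝ) 1,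
          g (t • (e : EuclideanSpace ℝ (Fin (m + 1)))))
          ∂(volume : Measure (EuclideanSpace ℝ (Fin (m + 1)))).toSphere := lintegral_mono hhalf
    _ ≤ ENNReal.ofReal (2 ^ m) *
          ∫⁻ x in closedBall (0 : EuclideanSpace ℝ (Fin (m + 1))) 1, g x := shell m hgm
    _ = ENNReal.ofReal (2 ^ m) * (2 * ENNReal.ofReal (Q ^ (m + 1)) *
          ∫⁻ x in closedBall (0 : EuclideanSpace ℝ (Fin (m + 1))) 1,
            NN (3 * δ) G (fun i => (R.symm x) i) ^ (m + 1)) := by
        rw [lintegral_const_mul _ hgm']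
    _ ≤ ENNReal.ofReal (2 ^ m) * (2 * ENNReal.ofReal (Q ^ (m + 1)) *
          (ENNReal.ofReal ((C + 2 ^ (m + 1)) * (1 + Real.log (1 / δ)) ^ c) *
            ENNReal.ofReal K ^ (m + 1) * I)) := by
        gcongr
        exact hball.trans hcube
    _ = _ := by
        rw [← ENNReal.ofReal_ofNat, ← mul_assoc, ← mul_assoc, ← mul_assoc,
          ← ENNReal.ofReal_pow hK0.le, ← ENNReal.ofReal_mul (by positivity),
          ← ENNReal.ofReal_mul (by positivity), ← ENNReal.ofReal_mul (by positivity),
          ← ENNReal.ofReal_mul (by positivity)]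
        congr 2
        ring

/-- **The Kakeya maximal estimate on ray-comonotone functions**, in all dimensions `n ≥ 3`, at the
critical exponent `n`, with a logarithmic loss; all products of functions of at most two
coordinates each and of polar products of three coordinates each are ray-comonotone; so are, in
particular, all functions `h (|x - p|) * w ((x - p) / |x - p|)` on `ℝ^3`. -/
theorem result : (∀ n : ℕ, 3 ≤ n → ∃ (C : ℝ) (c : ℕ), 0 < C ∧
    ∀ (δ K : ℝ) (f : EuclideanSpace ℝ (Fin n) → ℝ), 0 < δ → δ < 1 → 1 ≤ K → Measurable f →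
      IsRayComonotone K f →
      ∫⁻ e : sphere (0 : EuclideanSpace ℝ (Fin n)) 1, kakeyaMax δ f e ^ n
          ∂(volume : Measure (EuclideanSpace ℝ (Fin n))).toSphere
        ≤ ENNReal.ofReal (C * K ^ n * (1 + Real.log (1 / δ)) ^ c) * ∫⁻ y, ‖f y‖ₑ ^ n) ∧
    (∀ (n : ℕ) (f : EuclideanSpace ℝ (Fin n) → ℝ), PolarProduct f → IsRayComonotone 1 f) ∧
    ∀ (p : EuclideanSpace ℝ (Fin 3)) (h : ℝ → ℝ) (w : EuclideanSpace ℝ (Fin 3) → ℝ),
      Measurable h → IsRayComonotone 1 (fun x => h ‖x - p‖ * w (‖x - p‖⁻¹ • (x - p))) := by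
  refine ⟨fun n hn => ?_, fun n f hf => rayComonotone_of_product hf,
    fun p h w hh => rayComonotone_polar p h w hh⟩
  obtain ⟨m, rfl⟩ : ∃ m, n = m + 1 := ⟨n - 1, by omega⟩
  exact main m

end Pool.Agent.Results.MP_5168f5_an.RayComonotone
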