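import Pool.Agent.NH42.Max

/-!
# The Kakeya maximal function: beyond Wolff's exponent in dimension six, and the full hybrid of the
hairbrush method and of the Katz-Tao iteration in every dimension `n ≥ 7`
-/

set_option autoImplicit false

open MeasureTheory
open scoped ENNReal

namespace Pool.Agent.Results.MP_5168f5_an.SharpHybridMaximal

/-- The closed cylinder of length `1` and radius `δ` with centre `a` and axis direction `e`. -/
def tube {n : ℕ} (δ : ℝ) (a e : EuclideanSpace ℝ (Fin n)) : Set (EuclideanSpace ℝ (Fin n)) :=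
  {y | |inner ℝ (y - a) e| ≤ 1 / 2 ∧ ‖(y - a) - (inner ℝ (y - a) e) • e‖ ≤ δ}

/-- The Kakeya maximal function. -/
noncomputable def kakeyaMax {n : ℕ} (δ : ℝ) (f : EuclideanSpace ℝ (Fin n) → ℝ)
    (e : EuclideanSpace ℝ (Fin n)) : ℝ≥0∞ :=
  ⨆ a : EuclideanSpace ℝ (Fin n), (volume (tube δ a e))⁻¹ * ∫⁻ y in tube δ a e, ‖f y‖ₑ

/-- Surface measure of the unit sphere. -/
noncomputable abbrev surf (n : ℕ) : Measure (Metric.sphere (0 : EuclideanSpace ℝ (Fin n)) 1) :=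
  (volume : Measure (EuclideanSpace ℝ (Fin n))).toSphere

/-- The Kakeya maximal estimate `‖f*_δ‖_p ≤ C δ ^ (1 - n / p) ‖f‖_p` without loss. -/
def MaxEst (n : ℕ) (p : ℝ) : Prop :=
  ∃ C : ℝ, 0 < C ∧ ∀ δ : ℝ, 0 < δ → δ < 1 → ∀ f : EuclideanSpace ℝ (Fin n) → ℝ,
    AEMeasurable f volume →
    ∫⁻ e, kakeyaMax δ f e ^ p ∂(surf n) ≤
      ENNReal.ofReal (C * δ ^ (-((n : ℝ) - p))) * ∫⁻ y, ‖f y‖ₑ ^ p

/-- The estimate `L^p → L^(c p, ∞)` of the maximal function, for `p = 1 + (n - 1) / c`. -/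
def WeakEst (n : ℕ) (c p : ℝ) : Prop :=
  ∃ C : ℝ, 0 < C ∧ ∀ δ : ℝ, 0 < δ → δ < 1 → ∀ f : EuclideanSpace ℝ (Fin n) → ℝ,
    AEMeasurable f volume → ∀ l : ℝ, 0 < l →
    surf n {e | ENNReal.ofReal l < kakeyaMax δ f e} ≤
      ENNReal.ofReal (C * δ ^ (-((c - 1) * ((n : ℝ) - 1))) * l ^ (-(c * p))) *
        (∫⁻ y, ‖f y‖ₑ ^ p) ^ c

/-- The general result. -/
theorem general (n : ℕ) (hn : 4 ≤ n) (y c p : ℝ) (hy : 0 ≤ y) (hc1 : 1 < c)
    (hc : 0 < ((n : ℝ) - 1) * (c ^ 3 - 4 * c + 2) + c * (3 * c - 1 - c ^ 2) +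
      y * (n * c - 2 * (n - 1)))
    (hk : 3 * c ^ 2 < ((n : ℝ) - 1) * (c ^ 2 - 1) + (n - 2) * y)
    (hp : p = 1 + ((n : ℝ) - 1) / c) : MaxEst n p ∧ WeakEst n c p := by
  obtain ⟨d, rfl⟩ : ∃ d, n = d + 1 := ⟨n - 1, by omega⟩
  have hd : 3 ≤ d := by omega
  have e1 : (((d + 1 : ℕ) : ℝ) - 1) = d := by push_cast; ring
  have e2 : (((d + 1 : ℕ) : ℝ) - 2) = d - 1 := by push_cast; ring
  rw [e1] at hp hc hk
  rw [e2] at hk
  have hc' : 0 < (d : ℝ) * (c ^ 3 - 4 * c + 2) + c * (3 * c - 1 - c ^ 2) +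
      y * ((d + 1) * c - 2 * d) := by
    push_cast at hc
    exact hc
  subst hp
  obtain ⟨⟨C2, hC2, h2⟩, ⟨C1, hC1, h1⟩⟩ := Pool.Agent.NH42.max_n hd ⟨hy, hc1, hc', hk⟩
  refine ⟨⟨C1, hC1, ?_⟩, ⟨C2, hC2, ?_⟩⟩
  · intro δ hδ hδ1 f hf
    refine (h1 δ hδ hδ1 (fun y => ‖f y‖ₑ) hf.enorm).trans (mul_le_mul_left ?_ _)
    apply ENNReal.ofReal_le_ofReal
    have e3 : -((((d + 1 : ℕ) : ℝ)) - (1 + (d : ℝ) / c)) =
        -((d : ℝ) - (d : ℝ) / c) := by push_cast; ring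
    rw [e3]
  · intro δ hδ hδ1 f hf l hl
    refine (h2 δ hδ hδ1 (fun y => ‖f y‖ₑ) hf.enorm l hl).trans (mul_le_mul_left ?_ _)
    apply ENNReal.ofReal_le_ofReal
    have hc0 : c ≠ 0 := by linarith
    have e4 : -(c * (1 + (d : ℝ) / c)) = -((d : ℝ) + c) := by
      field_simp
      ring
    rw [e1, e4]

/-- Numerical instances. -/
theorem inst (n : ℕ) (hn : 4 ≤ n) (y p : ℝ) (hy : 0 ≤ y) (hp1 : 1 < p) (hp2 : p < n)
    (hc : 0 < ((n : ℝ) - 1) * ((((n : ℝ) - 1) / (p - 1)) ^ 3 - 4 * (((n : ℝ) - 1) / (p - 1)) + 2) +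
      (((n : ℝ) - 1) / (p - 1)) * (3 * (((n : ℝ) - 1) / (p - 1)) - 1 -
        (((n : ℝ) - 1) / (p - 1)) ^ 2) +
      y * (n * (((n : ℝ) - 1) / (p - 1)) - 2 * (n - 1)))
    (hk : 3 * (((n : ℝ) - 1) / (p - 1)) ^ 2 <
      ((n : ℝ) - 1) * ((((n : ℝ) - 1) / (p - 1)) ^ 2 - 1) + (n - 2) * y) : MaxEst n p := by
  have h1 : (0 : ℝ) < p - 1 := by linarith
  have h2 : (0 : ℝ) < (n : ℝ) - 1 := by linarith
  have hc1 : 1 < ((n : ℝ) - 1) / (p - 1) := by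
    rw [one_lt_div h1]
    linarith
  refine (general n hn y (((n : ℝ) - 1) / (p - 1)) p hy hc1 hc hk ?_).1
  field_simp
  ring

/-- The Kakeya maximal estimate `‖f*_δ‖_p ≤ C δ ^ (1 - n / p) ‖f‖_p` without loss holds at
`p = 4.173` in dimension `6`, `p = 5.36` in dimension `8`, `p = 6.55` in dimension `10`,
`p = 7.145` in dimension `11`, `p = 8.337` in dimension `13`; and for all `n ≥ 4`, `y ≥ 0`, `c > 1`
with `(n - 1) (c ^ 3 - 4 c + 2) + c (3 c - 1 - c ^ 2) + y (n c - 2 (n - 1)) > 0` and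
`3 c ^ 2 < (n - 1) (c ^ 2 - 1) + (n - 2) y` it holds at `p = 1 + (n - 1) / c`, with its stronger
weak type form `L^p → L^(c p, ∞)`.  For `n ≥ 7` one takes `y = 0`. -/
theorem result : MaxEst 6 4.173 ∧ MaxEst 8 5.36 ∧ MaxEst 10 6.55 ∧ MaxEst 11 7.145 ∧
    MaxEst 13 8.337 ∧
    ∀ n : ℕ, 4 ≤ n → ∀ y c p : ℝ, 0 ≤ y → 1 < c →
      0 < ((n : ℝ) - 1) * (c ^ 3 - 4 * c + 2) + c * (3 * c - 1 - c ^ 2) +
        y * (n * c - 2 * (n - 1)) →
      3 * c ^ 2 < ((n : ℝ) - 1) * (c ^ 2 - 1) + (n - 2) * y →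
      p = 1 + ((n : ℝ) - 1) / c → MaxEst n p ∧ WeakEst n c p := by
  refine ⟨?_, ?_, ?_, ?_, ?_, fun n hn y c p hy hc1 hc hk hp => general n hn y c p hy hc1 hc hk hp⟩
  · exact inst 6 (by norm_num) (17 / 2000) 4.173 (by norm_num) (by norm_num) (by norm_num)
      (by norm_num) (by norm_num)
  · exact inst 8 (by norm_num) 0 5.36 (by norm_num) (by norm_num) (by norm_num)
      (by norm_num) (by norm_num)
  · exact inst 10 (by norm_num) 0 6.55 (by norm_num) (by norm_num) (by norm_num)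
      (by norm_num) (by norm_num)
  · exact inst 11 (by norm_num) 0 7.145 (by norm_num) (by norm_num) (by norm_num)
      (by norm_num) (by norm_num)
  · exact inst 13 (by norm_num) 0 8.337 (by norm_num) (by norm_num) (by norm_num)
      (by norm_num) (by norm_num)

end Pool.Agent.Results.MP_5168f5_an.SharpHybridMaximal
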